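import Pool.Agent.Q95.SB.Per

set_option autoImplicit false

open Finset
open scoped Classical

namespace Pool.Agent.Q95.SB

lemma baseI (F : ℕ → ℕ → ℕ) : ∑ e ∈ SI 1, F (hI e) (kI e) = F 1 1 := by
  have h1 : SI 1 = {fun _ => 0} := by
    ext e
    rw [mem_SI, Finset.mem_singleton]
    constructor
    · intro h
      funext i
      have := h.1 i
      have h2 := i.2
      omega
    · rintro rfl
      refine ⟨fun i => Nat.zero_le _, fun i j k hij _ => ?_⟩
      exfalso
      have := Fin.lt_def.1 hij
      have := j.2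
      omega
  have h2 : M (fun _ : Fin 1 => 0) = 0 := by
    unfold M
    simp
  have h3 : VI (fun _ : Fin 1 => 0) = {0, 1} := by
    ext u
    unfold VI good
    simp only [Finset.mem_filter, Finset.mem_range, Finset.mem_insert, Finset.mem_singleton]
    constructor
    · rintro ⟨h, _⟩
      omega
    · intro h
      refine ⟨by omega, fun i j hij => ?_⟩
      exfalso
      have := Fin.lt_def.1 hij
      have := j.2
      omega
  rw [h1, Finset.sum_singleton]
  have h4 : hI (fun _ : Fin 1 => 0) = 1 := by
    unfold hI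
    rw [h2, h3, Finset.card_eq_one]
    refine ⟨0, ?_⟩
    ext u
    simp only [Finset.mem_filter, Finset.mem_insert, Finset.mem_singleton]
    omega
  have h5 : kI (fun _ : Fin 1 => 0) = 1 := by
    unfold kI
    rw [h2]
  rw [h4, h5]

lemma baseP (F : ℕ → ℕ → ℕ) : ∑ w ∈ SP 1, F (hP w) (kP w) = F 1 1 := by
  have h1 : SP 1 = {fun _ => 0} := by
    ext e
    rw [mem_SP, Finset.mem_singleton]
    constructor
    · intro h
      funext i
      have := h.1 i
      omega
    · rintro rfl
      refine ⟨fun i => Nat.zero_lt_one, fun i j _ => Subsingleton.elim _ _, fun a b c d hab _ _ => ?_⟩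
      exfalso
      have := Fin.lt_def.1 hab
      have := b.2
      omega
  have h3 : VP (fun _ : Fin 1 => 0) = {0, 1} := by
    ext u
    unfold VP goodP
    simp only [Finset.mem_filter, Finset.mem_range, Finset.mem_insert, Finset.mem_singleton]
    constructor
    · rintro ⟨h, _⟩
      omega
    · intro h
      refine ⟨by omega, fun i j c hij => ?_⟩
      exfalso
      have := Fin.lt_def.1 hij
      have := j.2
      omega
  rw [h1, Finset.sum_singleton]
  have h4 : hP (fun _ : Fin 1 => 0) = 1 := by
    unfold hP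
    rw [h3, Finset.card_eq_one]
    refine ⟨1, ?_⟩
    ext u
    simp only [Finset.mem_filter, Finset.mem_insert, Finset.mem_singleton]
    omega
  have h5 : kP (fun _ : Fin 1 => 0) = 1 := by
    unfold kP
    rw [h3, Finset.card_eq_one]
    refine ⟨0, ?_⟩
    ext u
    simp only [Finset.mem_filter, Finset.mem_insert, Finset.mem_singleton]
    omega
  rw [h4, h5]

lemma main (m : ℕ) : ∀ F : ℕ → ℕ → ℕ,
    ∑ e ∈ SI (m + 1), F (hI e) (kI e) = ∑ w ∈ SP (m + 1), F (hP w) (kP w) := by
  induction m with
  | zero => intro F; rw [baseI, baseP]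
  | succ m ih =>
    intro F
    rw [stepI, stepP]
    exact ih (D F)

theorem card_eq (n : ℕ) : (SI n).card = (SP n).card := by
  cases n with
  | zero =>
    congr 1
    ext e
    rw [mem_SI, mem_SP]
    constructor
    · intro _
      exact ⟨fun i => i.elim0, fun i => i.elim0, fun i => i.elim0⟩
    · intro _
      exact ⟨fun i => i.elim0, fun i => i.elim0⟩
  | succ m =>
    have := main m (fun _ _ => 1)
    simpa using this

/-- plane permutations and the barred pattern 21-bar3-54 -/
lemma plane_iff {n : ℕ} (w : Fin n → ℕ) (hw : Function.Injective w) :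
    (∀ a b c d : Fin n, a < b → b.val + 1 = c.val → c < d → ¬ (w b < w a ∧ w a < w d ∧ w d < w c)) ↔
    ∀ i j k l : Fin n, i < j → j < k → k < l → w j < w i → w i < w l → w l < w k →
      ∃ m : Fin n, j < m ∧ m < k ∧ w i < w m ∧ w m < w l := by
  constructor
  · intro h i j k l hij hjk hkl h1 h2 h3
    by_contra hno
    push Not at hno
    have key : ∀ t : ℕ, ∀ ht : t < n, j.val ≤ t → t ≤ k.val → w ⟨t, ht⟩ < w i := by
      intro t
      induction t with
      | zero =>
        intro ht hj hk
        have : (⟨0, ht⟩ : Fin n) = j := Fin.ext (by simp at hj ⊢; omega)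
        rw [this]
        exact h1
      | succ t ih =>
        intro ht hj hk
        rcases Nat.lt_or_ge t j.val with h4 | h4
        · have : (⟨t + 1, ht⟩ : Fin n) = j := Fin.ext (by simp; omega)
          rw [this]
          exact h1
        · have h5 := ih (by omega) h4 (by omega)
          by_contra h6
          have hkl' := Fin.lt_def.1 hkl
          have hij' := Fin.lt_def.1 hij
          have h7 : w ⟨t + 1, ht⟩ ≠ w i := by
            intro h8
            have := congrArg Fin.val (hw h8)
            simp at this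
            omega
          have h9 : w l < w ⟨t + 1, ht⟩ := by
            rcases Nat.lt_or_ge (t + 1) k.val with h10 | h10
            · have h11 := hno ⟨t + 1, ht⟩ (Fin.lt_def.2 (by simp; omega)) (Fin.lt_def.2 h10) (by omega)
              have h12 : w ⟨t + 1, ht⟩ ≠ w l := by
                intro h8
                have := congrArg Fin.val (hw h8)
                simp at this
                omega
              omega
            · have : (⟨t + 1, ht⟩ : Fin n) = k := Fin.ext (by simp; omega)
              rw [this]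
              exact h3
          exact h i ⟨t, by omega⟩ ⟨t + 1, ht⟩ l (Fin.lt_def.2 (by simp; omega)) rfl
            (Fin.lt_def.2 (by simp; omega)) ⟨h5, h2, h9⟩
    have h13 : w k < w i := key k.val k.2 (Fin.lt_def.1 hjk).le le_rfl
    omega
  · intro h a b c d hab hbc hcd h1
    obtain ⟨m, h2, h3, _⟩ := h a b c d hab (Fin.lt_def.2 (by omega)) hcd h1.1 h1.2.1 h1.2.2
    have := Fin.lt_def.1 h2
    have := Fin.lt_def.1 h3
    omega

theorem cardP (n : ℕ) :
    Nat.card {σ : Equiv.Perm (Fin n) //
        ∀ i j k l : Fin n, i < j → j < k → k < l →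
          σ j < σ i → σ i < σ l → σ l < σ k →
          ∃ m : Fin n, j < m ∧ m < k ∧ σ i < σ m ∧ σ m < σ l} = (SP n).card := by
  have h0 : (SP n).card = Nat.card {w : Fin n → ℕ // w ∈ SP n} := by
    rw [Nat.card_eq_fintype_card, Fintype.card_coe]
  rw [h0]
  have hval : ∀ σ : Equiv.Perm (Fin n), Function.Injective (fun i => (σ i).val) := by
    intro σ a b h
    exact σ.injective (Fin.ext h)
  have hiff : ∀ σ : Equiv.Perm (Fin n), (∀ i j k l : Fin n, i < j → j < k → k < l →
          σ j < σ i → σ i < σ l → σ l < σ k →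
          ∃ m : Fin n, j < m ∧ m < k ∧ σ i < σ m ∧ σ m < σ l) ↔
      (fun i => (σ i).val) ∈ SP n := by
    intro σ
    rw [mem_SP]
    unfold okP
    rw [plane_iff _ (hval σ)]
    constructor
    · intro h
      exact ⟨fun i => (σ i).2, hval σ, h⟩
    · intro h
      exact h.2.2
  refine Nat.card_eq_of_bijective (fun s => ⟨fun i => (s.1 i).val, (hiff s.1).1 s.2⟩) ⟨?_, ?_⟩
  · rintro ⟨σ, hσ⟩ ⟨τ, hτ⟩ h
    apply Subtype.ext
    apply Equiv.ext
    intro i
    have := congrFun (congrArg Subtype.val h) i
    exact Fin.ext this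
  · rintro ⟨w, hw⟩
    have hw2 := (mem_SP w).1 hw
    have hinj : Function.Injective (fun i => (⟨w i, hw2.1 i⟩ : Fin n)) := by
      intro a b h
      exact hw2.2.1 (by simpa using h)
    have hb := Finite.injective_iff_bijective.1 hinj
    refine ⟨⟨Equiv.ofBijective _ hb, ?_⟩, ?_⟩
    · rw [hiff]
      exact hw
    · apply Subtype.ext
      funext i
      rfl

theorem cardI (n : ℕ) :
    Nat.card {e : Fin n → Fin n //
        (∀ i : Fin n, (e i).val ≤ i.val) ∧
        ∀ i j k : Fin n, i < j → j < k →
          ¬ (e i = e k ∧ e j < e i) ∧ ¬ (e j < e k ∧ e k < e i)} = (SI n).card := by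
  have h0 : (SI n).card = Nat.card {w : Fin n → ℕ // w ∈ SI n} := by
    rw [Nat.card_eq_fintype_card, Fintype.card_coe]
  rw [h0]
  have hiff : ∀ e : Fin n → Fin n, ((∀ i : Fin n, (e i).val ≤ i.val) ∧
        ∀ i j k : Fin n, i < j → j < k →
          ¬ (e i = e k ∧ e j < e i) ∧ ¬ (e j < e k ∧ e k < e i)) ↔
      (fun i => (e i).val) ∈ SI n := by
    intro e
    rw [mem_SI]
    unfold okI
    refine and_congr Iff.rfl ?_
    refine forall_congr' fun i => forall_congr' fun j => forall_congr' fun k =>
      forall_congr' fun _ => forall_congr' fun _ => ?_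
    rw [Fin.ext_iff, Fin.lt_def, Fin.lt_def, Fin.lt_def]
    show _ ↔ ¬ ((e j).val < (e k).val ∧ (e k).val ≤ (e i).val)
    omega
  refine Nat.card_eq_of_bijective (fun s => ⟨fun i => (s.1 i).val, (hiff s.1).1 s.2⟩) ⟨?_, ?_⟩
  · rintro ⟨σ, hσ⟩ ⟨τ, hτ⟩ h
    apply Subtype.ext
    funext i
    have := congrFun (congrArg Subtype.val h) i
    exact Fin.ext this
  · rintro ⟨w, hw⟩
    have hw2 := (mem_SI w).1 hw
    have hlt : ∀ i, w i < n := fun i => lt_of_le_of_lt (hw2.1 i) i.2
    refine ⟨⟨fun i => ⟨w i, hlt i⟩, ?_⟩, ?_⟩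
    · rw [hiff]
      exact hw
    · apply Subtype.ext
      funext i
      rfl

end Pool.Agent.Q95.SB
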