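import Mathlib

set_option autoImplicit false

open Finset
open scoped Classical

namespace Pool.Agent.Q95.SB

/-- the operator of the semi-Baxter generating tree -/
def D (F : ℕ → ℕ → ℕ) (h k : ℕ) : ℕ :=
  ∑ r ∈ Icc 1 h, F r (k + 1) + ∑ s ∈ Icc 1 k, F (h + s) (k + 1 - s)

lemma sum_rank_le (A : Finset ℕ) (f : ℕ → ℕ) :
    ∑ v ∈ A, f ((A.filter (fun u => u ≤ v)).card) = ∑ r ∈ Icc 1 A.card, f r := by
  induction A using Finset.induction_on_max with
  | empty => simp
  | insert a s hs ih =>
    have ha : a ∉ s := fun h => lt_irrefl _ (hs a h)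
    rw [Finset.sum_insert ha, Finset.card_insert_of_notMem ha,
      Finset.sum_Icc_succ_top (by omega), ← ih, add_comm]
    congr 1
    · refine Finset.sum_congr rfl ?_
      intro v hv
      congr 2
      ext u
      have := hs v hv
      simp only [Finset.mem_filter, Finset.mem_insert]
      constructor
      · rintro ⟨h1 | h1, h2⟩
        · omega
        · exact ⟨h1, h2⟩
      · rintro ⟨h1, h2⟩
        exact ⟨Or.inr h1, h2⟩
    · congr 1
      rw [Finset.filter_true_of_mem, Finset.card_insert_of_notMem ha]
      intro u hu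
      rcases Finset.mem_insert.1 hu with h | h
      · exact h.le
      · exact (hs u h).le

lemma sum_rank_ge (A : Finset ℕ) (f : ℕ → ℕ) :
    ∑ v ∈ A, f ((A.filter (fun u => v ≤ u)).card) = ∑ r ∈ Icc 1 A.card, f r := by
  induction A using Finset.induction_on_min with
  | empty => simp
  | insert a s hs ih =>
    have ha : a ∉ s := fun h => lt_irrefl _ (hs a h)
    rw [Finset.sum_insert ha, Finset.card_insert_of_notMem ha,
      Finset.sum_Icc_succ_top (by omega), ← ih, add_comm]
    congr 1
    · refine Finset.sum_congr rfl ?_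
      intro v hv
      congr 2
      ext u
      have := hs v hv
      simp only [Finset.mem_filter, Finset.mem_insert]
      constructor
      · rintro ⟨h1 | h1, h2⟩
        · omega
        · exact ⟨h1, h2⟩
      · rintro ⟨h1, h2⟩
        exact ⟨Or.inr h1, h2⟩
    · congr 1
      rw [Finset.filter_true_of_mem, Finset.card_insert_of_notMem ha]
      intro u hu
      rcases Finset.mem_insert.1 hu with h | h
      · exact h.ge
      · exact (hs u h).le

/-- `v` may be appended to `e` -/
def good {n : ℕ} (e : Fin n → ℕ) (v : ℕ) : Prop := ∀ i j, i < j → ¬ (e j < v ∧ v ≤ e i)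

noncomputable def VI {n : ℕ} (e : Fin n → ℕ) : Finset ℕ := (range (n + 1)).filter (good e)

def M {n : ℕ} (e : Fin n → ℕ) : ℕ := univ.sup e

def okI {n : ℕ} (e : Fin n → ℕ) : Prop :=
  (∀ i, e i ≤ i.val) ∧ ∀ i j k, i < j → j < k → ¬ (e j < e k ∧ e k ≤ e i)

noncomputable def SI (n : ℕ) : Finset (Fin n → ℕ) :=
  (Fintype.piFinset fun i : Fin n => range (i.val + 1)).filter okI

lemma mem_SI {n : ℕ} (e : Fin n → ℕ) : e ∈ SI n ↔ okI e := by
  unfold SI
  simp only [Finset.mem_filter, Fintype.mem_piFinset, Finset.mem_range]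
  constructor
  · exact fun h => h.2
  · intro h
    exact ⟨fun i => by have := h.1 i; omega, h⟩

noncomputable def hI {n : ℕ} (e : Fin n → ℕ) : ℕ := ((VI e).filter (fun u => u ≤ M e)).card

noncomputable def kI {n : ℕ} (e : Fin n → ℕ) : ℕ := n - M e

lemma le_M {n : ℕ} (e : Fin n → ℕ) (i : Fin n) : e i ≤ M e := Finset.le_sup (f := e) (Finset.mem_univ i)

lemma M_snoc {n : ℕ} (e : Fin n → ℕ) (v : ℕ) :
    M (Fin.snoc e v : Fin (n + 1) → ℕ) = max (M e) v := by
  apply le_antisymm
  · apply Finset.sup_le
    intro i _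
    refine Fin.lastCases ?_ (fun j => ?_) i
    · simp
    · simp [le_M e j]
  · apply max_le
    · apply Finset.sup_le
      intro i _
      have := le_M (Fin.snoc e v : Fin (n + 1) → ℕ) i.castSucc
      simpa using this
    · have := le_M (Fin.snoc e v : Fin (n + 1) → ℕ) (Fin.last n)
      simpa using this

lemma good_snoc {n : ℕ} (e : Fin n → ℕ) (v u : ℕ) :
    good (Fin.snoc e v : Fin (n + 1) → ℕ) u ↔ good e u ∧ ¬ (v < u ∧ u ≤ M e) := by
  unfold good
  constructor
  · intro h
    refine ⟨?_, ?_⟩
    · intro i j hij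
      have := h i.castSucc j.castSucc (by simpa using hij)
      simpa using this
    · rintro ⟨h1, h2⟩
      obtain ⟨i, _, hi⟩ := (Finset.le_sup_iff (by simp; omega : (⊥ : ℕ) < u)).1 h2
      have := h i.castSucc (Fin.last n) (Fin.castSucc_lt_last i)
      simp only [Fin.snoc_castSucc, Fin.snoc_last] at this
      exact this ⟨h1, hi⟩
  · rintro ⟨h1, h2⟩ i j hij
    induction j using Fin.lastCases with
    | last =>
      induction i using Fin.lastCases with
      | last => exact absurd hij (lt_irrefl _)
      | cast i =>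
        simp only [Fin.snoc_castSucc, Fin.snoc_last]
        rintro ⟨h3, h4⟩
        exact h2 ⟨h3, h4.trans (le_M e i)⟩
    | cast j =>
      induction i using Fin.lastCases with
      | last => exact absurd hij (by simp [Fin.lt_def] <;> omega)
      | cast i =>
        simp only [Fin.snoc_castSucc]
        exact h1 i j (by simpa using hij)

lemma ok_snoc {n : ℕ} (e : Fin n → ℕ) (v : ℕ) :
    okI (Fin.snoc e v : Fin (n + 1) → ℕ) ↔ okI e ∧ v ∈ VI e := by
  unfold okI VI
  simp only [Finset.mem_filter, Finset.mem_range]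
  constructor
  · rintro ⟨h1, h2⟩
    refine ⟨⟨fun i => ?_, fun i j k hij hjk => ?_⟩, ?_, ?_⟩
    · have := h1 i.castSucc
      simpa using this
    · have := h2 i.castSucc j.castSucc k.castSucc (by simpa using hij) (by simpa using hjk)
      simpa using this
    · have := h1 (Fin.last n)
      simp at this
      omega
    · intro i j hij
      have := h2 i.castSucc j.castSucc (Fin.last n) (by simpa using hij) (Fin.castSucc_lt_last j)
      simpa using this
  · rintro ⟨⟨h1, h2⟩, h3, h4⟩
    refine ⟨fun i => ?_, fun i j k hij hjk => ?_⟩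
    · induction i using Fin.lastCases with
      | last => simp; omega
      | cast i => simpa using h1 i
    · induction j using Fin.lastCases with
      | last => exact absurd hjk (by simp [Fin.lt_def] <;> omega)
      | cast j =>
        induction i using Fin.lastCases with
        | last => exact absurd hij (by simp [Fin.lt_def] <;> omega)
        | cast i =>
          induction k using Fin.lastCases with
          | last =>
            simp only [Fin.snoc_castSucc, Fin.snoc_last]
            exact h4 i j (by simpa using hij)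
          | cast k =>
            simp only [Fin.snoc_castSucc]
            exact h2 i j k (by simpa using hij) (by simpa using hjk)

lemma good_of_gt {n : ℕ} (e : Fin n → ℕ) (u : ℕ) (h : M e < u) : good e u := by
  intro i j _ h2
  have := le_M e i
  omega

lemma M_lt {n : ℕ} (e : Fin (n + 1) → ℕ) (he : okI e) : M e ≤ n := by
  apply Finset.sup_le
  intro i _
  have := he.1 i
  have := i.2
  omega

lemma inner {n : ℕ} (F : ℕ → ℕ → ℕ) (e : Fin (n + 1) → ℕ) (he : okI e) :
    ∑ v ∈ VI e, F (hI (Fin.snoc e v : Fin (n + 2) → ℕ)) (kI (Fin.snoc e v : Fin (n + 2) → ℕ)) =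
      D F (hI e) (kI e) := by
  have hM := M_lt e he
  rw [← Finset.sum_filter_add_sum_filter_not (VI e) (fun u => u ≤ M e)]
  unfold D
  congr 1
  · have h1 : ∀ v ∈ (VI e).filter (fun u => u ≤ M e),
        F (hI (Fin.snoc e v : Fin (n + 2) → ℕ)) (kI (Fin.snoc e v : Fin (n + 2) → ℕ)) =
        F ((((VI e).filter (fun u => u ≤ M e)).filter (fun u => u ≤ v)).card) (kI e + 1) := by
      intro v hv
      obtain ⟨hv1, hv2⟩ := Finset.mem_filter.1 hv
      have h2 : M (Fin.snoc e v : Fin (n + 2) → ℕ) = M e := by rw [M_snoc]; exact max_eq_left hv2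
      congr 1
      · unfold hI
        congr 1
        ext u
        unfold VI
        rw [h2]
        simp only [Finset.mem_filter, Finset.mem_range, good_snoc]
        constructor
        · rintro ⟨⟨h3, h4, h5⟩, h6⟩
          refine ⟨⟨⟨by omega, h4⟩, h6⟩, ?_⟩
          by_contra h7
          exact h5 ⟨by omega, h6⟩
        · rintro ⟨⟨⟨h3, h4⟩, h6⟩, h7⟩
          exact ⟨⟨by omega, h4, by omega⟩, h6⟩
      · unfold kI
        rw [h2]
        omega
    rw [Finset.sum_congr rfl h1, sum_rank_le _ (fun r => F r (kI e + 1))]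
    rfl
  · have h0 : (VI e).filter (fun u => ¬ u ≤ M e) = Ioc (M e) (n + 1) := by
      ext u
      unfold VI
      simp only [Finset.mem_filter, Finset.mem_range, Finset.mem_Ioc]
      constructor
      · rintro ⟨⟨h1, h2⟩, h3⟩
        omega
      · rintro ⟨h1, h2⟩
        exact ⟨⟨by omega, good_of_gt e u h1⟩, by omega⟩
    rw [h0]
    refine Finset.sum_nbij' (fun v => v - M e) (fun s => M e + s) ?_ ?_ ?_ ?_ ?_
    · intro v hv
      rw [Finset.mem_Ioc] at hv
      rw [Finset.mem_Icc]
      unfold kI
      omega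
    · intro s hs
      rw [Finset.mem_Icc] at hs
      unfold kI at hs
      rw [Finset.mem_Ioc]
      omega
    · intro v hv
      rw [Finset.mem_Ioc] at hv
      show M e + (v - M e) = v
      omega
    · intro s hs
      simp
    · intro v hv
      rw [Finset.mem_Ioc] at hv
      have h2 : M (Fin.snoc e v : Fin (n + 2) → ℕ) = v := by rw [M_snoc]; exact max_eq_right hv.1.le
      congr 1
      · have h3 : hI (Fin.snoc e v : Fin (n + 2) → ℕ) =
            (((VI e).filter (fun u => u ≤ M e)) ∪ Ioc (M e) v).card := by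
          unfold hI
          congr 1
          ext u
          unfold VI
          rw [h2]
          simp only [Finset.mem_filter, Finset.mem_range, good_snoc, Finset.mem_union, Finset.mem_Ioc]
          constructor
          · rintro ⟨⟨h3, h4, h5⟩, h6⟩
            by_cases h7 : u ≤ M e
            · left
              exact ⟨⟨by omega, h4⟩, h7⟩
            · right
              omega
          · rintro (⟨⟨h3, h4⟩, h5⟩ | ⟨h3, h4⟩)
            · exact ⟨⟨by omega, h4, by omega⟩, by omega⟩
            · exact ⟨⟨by omega, good_of_gt e u h3, by omega⟩, h4⟩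
        rw [h3, Finset.card_union_of_disjoint, Nat.card_Ioc]
        · rfl
        · rw [Finset.disjoint_left]
          intro u h4 h5
          rw [Finset.mem_filter] at h4
          rw [Finset.mem_Ioc] at h5
          omega
      · unfold kI
        rw [h2]
        omega

lemma stepI (F : ℕ → ℕ → ℕ) (n : ℕ) :
    ∑ e ∈ SI (n + 2), F (hI e) (kI e) = ∑ e ∈ SI (n + 1), D F (hI e) (kI e) := by
  have h1 : ∑ e ∈ SI (n + 1), D F (hI e) (kI e) = ∑ e ∈ SI (n + 1), ∑ v ∈ VI e,
      F (hI (Fin.snoc e v : Fin (n + 2) → ℕ)) (kI (Fin.snoc e v : Fin (n + 2) → ℕ)) := by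
    refine Finset.sum_congr rfl ?_
    intro e he
    exact (inner F e ((mem_SI e).1 he)).symm
  rw [h1, Finset.sum_sigma' (SI (n + 1)) (fun e => VI e)]
  symm
  refine Finset.sum_nbij' (fun x : (Σ _ : Fin (n + 1) → ℕ, ℕ) => (Fin.snoc x.1 x.2 : Fin (n + 2) → ℕ))
    (fun e => ⟨Fin.init e, e (Fin.last (n + 1))⟩) ?_ ?_ ?_ ?_ ?_
  · rintro ⟨e, v⟩ h
    rw [Finset.mem_sigma] at h
    rw [mem_SI]
    exact (ok_snoc e v).2 ⟨(mem_SI e).1 h.1, h.2⟩
  · intro e he
    rw [mem_SI] at he
    rw [Finset.mem_sigma, mem_SI]
    have := (ok_snoc (Fin.init e) (e (Fin.last (n + 1)))).1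
    rw [Fin.snoc_init_self] at this
    exact this he
  · rintro ⟨e, v⟩ h
    simp
  · intro e he
    simp
  · rintro ⟨e, v⟩ h
    rfl

end Pool.Agent.Q95.SB
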