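import Pool.Agent.Q95.SB.Inv

set_option autoImplicit false

open Finset
open scoped Classical

namespace Pool.Agent.Q95.SB

def shift (v a : ℕ) : ℕ := if a < v then a else a + 1

lemma shift_lt (v a b : ℕ) : shift v a < shift v b ↔ a < b := by
  unfold shift
  split_ifs <;> omega

lemma shift_inj (v : ℕ) : Function.Injective (shift v) := by
  intro a b h
  unfold shift at h
  split_ifs at h <;> omega

lemma shift_ne (v a : ℕ) : shift v a ≠ v := by
  unfold shift
  split_ifs <;> omega

/-- `v` may be appended to the word `w` -/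
def goodP {n : ℕ} (w : Fin n → ℕ) (v : ℕ) : Prop :=
  ∀ a b c : Fin n, a < b → b.val + 1 = c.val → ¬ (w b < w a ∧ w a < v ∧ v ≤ w c)

def okP {n : ℕ} (w : Fin n → ℕ) : Prop :=
  (∀ i, w i < n) ∧ Function.Injective w ∧
    ∀ a b c d : Fin n, a < b → b.val + 1 = c.val → c < d → ¬ (w b < w a ∧ w a < w d ∧ w d < w c)

noncomputable def VP {n : ℕ} (w : Fin n → ℕ) : Finset ℕ := (range (n + 1)).filter (goodP w)

noncomputable def SP (n : ℕ) : Finset (Fin n → ℕ) :=
  (Fintype.piFinset fun _ : Fin n => range n).filter okP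

lemma mem_SP {n : ℕ} (w : Fin n → ℕ) : w ∈ SP n ↔ okP w := by
  unfold SP
  simp only [Finset.mem_filter, Fintype.mem_piFinset, Finset.mem_range]
  constructor
  · exact fun h => h.2
  · intro h
    exact ⟨fun i => h.1 i, h⟩

def ext {n : ℕ} (w : Fin n → ℕ) (v : ℕ) : Fin (n + 1) → ℕ := Fin.snoc (fun i => shift v (w i)) v

@[simp] lemma ext_cast {n : ℕ} (w : Fin n → ℕ) (v : ℕ) (i : Fin n) :
    ext w v i.castSucc = shift v (w i) := by
  unfold ext
  simp

@[simp] lemma ext_last {n : ℕ} (w : Fin n → ℕ) (v : ℕ) : ext w v (Fin.last n) = v := by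
  unfold ext
  simp

lemma ok_ext {n : ℕ} (w : Fin n → ℕ) (v : ℕ) : okP (ext w v) ↔ okP w ∧ v ∈ VP w := by
  unfold okP VP
  simp only [Finset.mem_filter, Finset.mem_range]
  constructor
  · rintro ⟨h1, h2, h3⟩
    have hv : v < n + 1 := by
      have := h1 (Fin.last n)
      rwa [ext_last] at this
    refine ⟨⟨fun i => ?_, fun i j hij => ?_, fun a b c d hab hbc hcd => ?_⟩, hv, ?_⟩
    · have h4 := h1 i.castSucc
      rw [ext_cast] at h4
      unfold shift at h4
      split_ifs at h4 <;> omega
    · have : i.castSucc = j.castSucc := h2 (by rw [ext_cast, ext_cast, hij])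
      exact Fin.castSucc_injective _ this
    · have h4 := h3 a.castSucc b.castSucc c.castSucc d.castSucc (by simpa using hab)
        (by simpa using hbc) (by simpa using hcd)
      simp only [ext_cast, shift_lt] at h4
      exact h4
    · intro a b c hab hbc
      have h4 := h3 a.castSucc b.castSucc c.castSucc (Fin.last n) (by simpa using hab)
        (by simpa using hbc) (Fin.castSucc_lt_last c)
      simp only [ext_cast, ext_last, shift_lt] at h4
      rintro ⟨h5, h6, h7⟩
      apply h4
      refine ⟨h5, ?_, ?_⟩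
      · unfold shift; split_ifs <;> omega
      · unfold shift; split_ifs <;> omega
  · rintro ⟨⟨h1, h2, h3⟩, h4, h5⟩
    refine ⟨fun i => ?_, fun i j hij => ?_, fun a b c d hab hbc hcd => ?_⟩
    · induction i using Fin.lastCases with
      | last => rw [ext_last]; exact h4
      | cast i =>
        rw [ext_cast]
        have := h1 i
        unfold shift
        split_ifs <;> omega
    · induction i using Fin.lastCases with
      | last =>
        induction j using Fin.lastCases with
        | last => rfl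
        | cast j =>
          rw [ext_last, ext_cast] at hij
          exact absurd hij.symm (shift_ne _ _)
      | cast i =>
        induction j using Fin.lastCases with
        | last =>
          rw [ext_last, ext_cast] at hij
          exact absurd hij (shift_ne _ _)
        | cast j =>
          rw [ext_cast, ext_cast] at hij
          rw [h2 (shift_inj _ hij)]
    · have hc : c.val < n := by have := d.2; have h := Fin.lt_def.1 hcd; omega
      obtain ⟨c', rfl⟩ : ∃ c' : Fin n, c = c'.castSucc := ⟨⟨c.val, hc⟩, rfl⟩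
      have hb : b.val < n := by simp at hbc; omega
      obtain ⟨b', rfl⟩ : ∃ b' : Fin n, b = b'.castSucc := ⟨⟨b.val, hb⟩, rfl⟩
      have ha : a.val < n := by have h := Fin.lt_def.1 hab; simp at h; omega
      obtain ⟨a', rfl⟩ : ∃ a' : Fin n, a = a'.castSucc := ⟨⟨a.val, ha⟩, rfl⟩
      induction d using Fin.lastCases with
      | last =>
        simp only [ext_cast, ext_last, shift_lt]
        rintro ⟨h6, h7, h8⟩
        apply h5 a' b' c' (by simpa using hab) (by simpa using hbc)
        refine ⟨h6, ?_, ?_⟩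
        · unfold shift at h7; split_ifs at h7 <;> omega
        · unfold shift at h8; split_ifs at h8 <;> omega
      | cast d =>
        simp only [ext_cast, shift_lt]
        exact h3 a' b' c' d (by simpa using hab) (by simpa using hbc) (by simpa using hcd)

/-- numbers of allowed sites above / not above the last entry -/
noncomputable def hP {n : ℕ} (w : Fin (n + 1) → ℕ) : ℕ :=
  ((VP w).filter (fun u => ¬ u ≤ w (Fin.last n))).card

noncomputable def kP {n : ℕ} (w : Fin (n + 1) → ℕ) : ℕ :=
  ((VP w).filter (fun u => u ≤ w (Fin.last n))).card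

/-- goodness of a site after appending -/
lemma good_ext {n : ℕ} (w : Fin (n + 1) → ℕ) (v u : ℕ) :
    goodP (ext w v) u ↔
      (∀ a b c : Fin (n + 1), a < b → b.val + 1 = c.val →
        ¬ (w b < w a ∧ shift v (w a) < u ∧ u ≤ shift v (w c))) ∧
      (∀ a : Fin (n + 1), a < Fin.last n →
        ¬ (w (Fin.last n) < w a ∧ shift v (w a) < u ∧ u ≤ v)) := by
  unfold goodP
  constructor
  · intro h
    refine ⟨fun a b c hab hbc => ?_, fun a ha => ?_⟩
    · have := h a.castSucc b.castSucc c.castSucc (by simpa using hab) (by simpa using hbc)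
      simpa only [ext_cast, shift_lt] using this
    · have := h a.castSucc (Fin.last n).castSucc (Fin.last (n + 1)) (by simpa using ha) (by simp)
      simpa only [ext_cast, ext_last, shift_lt] using this
  · rintro ⟨h1, h2⟩ a b c hab hbc
    have hb : b.val < n + 1 := by have := c.2; omega
    obtain ⟨b', rfl⟩ : ∃ b' : Fin (n + 1), b = b'.castSucc := ⟨⟨b.val, hb⟩, rfl⟩
    have ha : a.val < n + 1 := by have h := Fin.lt_def.1 hab; simp at h; omega
    obtain ⟨a', rfl⟩ : ∃ a' : Fin (n + 1), a = a'.castSucc := ⟨⟨a.val, ha⟩, rfl⟩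
    induction c using Fin.lastCases with
    | last =>
      have hb' : b' = Fin.last n := by
        apply Fin.ext
        simp at hbc
        simpa using hbc
      subst hb'
      simp only [ext_cast, ext_last, shift_lt]
      exact h2 a' (by simpa using hab)
    | cast c =>
      simp only [ext_cast, shift_lt]
      exact h1 a' b' c (by simpa using hab) (by simpa using hbc)

lemma shift_site_le (v u x y : ℕ) (hu : u ≤ v) :
    (shift v x < u ↔ x < u) ∧ (u ≤ shift v y ↔ u ≤ y) := by
  unfold shift
  constructor <;> split_ifs <;> omega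

lemma shift_site_gt (v u x y : ℕ) (hu : v ≤ u) :
    (shift v x < u + 1 ↔ x < u ∨ (x = u ∧ u < v)) ∧ (u + 1 ≤ shift v y ↔ u ≤ y ∧ v ≤ y) := by
  unfold shift
  constructor <;> split_ifs <;> omega

/-- allowed sites not above `v` -/
lemma site_low {n : ℕ} (w : Fin (n + 1) → ℕ) (v u : ℕ) (hu : u ≤ v) :
    goodP (ext w v) u ↔ goodP w u ∧
      ∀ a : Fin (n + 1), a < Fin.last n → ¬ (w (Fin.last n) < w a ∧ w a < u ∧ u ≤ v) := by
  rw [good_ext]
  unfold goodP
  constructor
  · rintro ⟨h1, h2⟩
    refine ⟨fun a b c hab hbc => ?_, fun a ha => ?_⟩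
    · have := h1 a b c hab hbc
      rwa [(shift_site_le v u (w a) (w c) hu).1, (shift_site_le v u (w a) (w c) hu).2] at this
    · have := h2 a ha
      rwa [(shift_site_le v u (w a) (w a) hu).1] at this
  · rintro ⟨h1, h2⟩
    refine ⟨fun a b c hab hbc => ?_, fun a ha => ?_⟩
    · rw [(shift_site_le v u (w a) (w c) hu).1, (shift_site_le v u (w a) (w c) hu).2]
      exact h1 a b c hab hbc
    · rw [(shift_site_le v u (w a) (w a) hu).1]
      exact h2 a ha

/-- allowed sites above `v` -/
lemma site_high {n : ℕ} (w : Fin (n + 1) → ℕ) (v u : ℕ) (hu : v ≤ u) :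
    goodP (ext w v) (u + 1) ↔ goodP w u := by
  rw [good_ext]
  unfold goodP
  constructor
  · rintro ⟨h1, _⟩ a b c hab hbc ⟨h3, h4, h5⟩
    apply h1 a b c hab hbc
    refine ⟨h3, ?_, ?_⟩
    · unfold shift; split_ifs <;> omega
    · unfold shift; split_ifs <;> omega
  · intro h1
    refine ⟨?_, ?_⟩
    · rintro a b c hab hbc ⟨h3, h4, h5⟩
      apply h1 a b c hab hbc
      refine ⟨h3, ?_, ?_⟩
      · unfold shift at h4; split_ifs at h4 <;> omega
      · unfold shift at h5; split_ifs at h5 <;> omega
    · rintro a _ ⟨_, _, h⟩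
      omega

lemma VP_le {n : ℕ} (w : Fin n → ℕ) (v : ℕ) (h : v ∈ VP w) : v ≤ n := by
  unfold VP at h
  have := (Finset.mem_range.1 (Finset.mem_filter.1 h).1)
  omega

lemma hP_ext {n : ℕ} (w : Fin (n + 1) → ℕ) (v : ℕ) :
    hP (ext w v) = ((VP w).filter (fun u => v ≤ u)).card := by
  unfold hP
  rw [ext_last]
  symm
  refine Finset.card_bij (fun u _ => u + 1) ?_ ?_ ?_
  · intro u hu
    obtain ⟨h1, h2⟩ := Finset.mem_filter.1 hu
    unfold VP at h1 ⊢
    obtain ⟨h3, h4⟩ := Finset.mem_filter.1 h1
    rw [Finset.mem_range] at h3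
    simp only [Finset.mem_filter, Finset.mem_range]
    exact ⟨⟨by omega, (site_high w v u h2).2 h4⟩, by omega⟩
  · intro a _ b _ h
    simpa using h
  · intro u hu
    obtain ⟨h1, h2⟩ := Finset.mem_filter.1 hu
    unfold VP at h1
    obtain ⟨h3, h4⟩ := Finset.mem_filter.1 h1
    rw [Finset.mem_range] at h3
    refine ⟨u - 1, ?_, by omega⟩
    unfold VP
    simp only [Finset.mem_filter, Finset.mem_range]
    refine ⟨⟨by omega, ?_⟩, by omega⟩
    rw [← site_high w v (u - 1) (by omega)]
    have : u - 1 + 1 = u := by omega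
    rwa [this]

lemma kP_low {n : ℕ} (w : Fin (n + 1) → ℕ) (v : ℕ) (hv : v ≤ w (Fin.last n)) (hn : v ≤ n + 1) :
    kP (ext w v) = ((VP w).filter (fun u => u ≤ v)).card := by
  unfold kP
  rw [ext_last]
  congr 1
  ext u
  unfold VP
  simp only [Finset.mem_filter, Finset.mem_range]
  constructor
  · rintro ⟨⟨h1, h2⟩, h3⟩
    exact ⟨⟨by omega, ((site_low w v u h3).1 h2).1⟩, h3⟩
  · rintro ⟨⟨h1, h2⟩, h3⟩
    refine ⟨⟨by omega, (site_low w v u h3).2 ⟨h2, ?_⟩⟩, h3⟩
    rintro a _ ⟨h4, h5, h6⟩
    omega

lemma next_good {n : ℕ} (w : Fin (n + 1) → ℕ) (hw : okP w) : goodP w (w (Fin.last n) + 1) := by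
  rintro a b c hab hbc ⟨h1, h2, h3⟩
  have hc : c ≠ Fin.last n := by
    rintro rfl
    omega
  have hc2 : c < Fin.last n := Fin.lt_last_iff_ne_last.2 hc
  have ha : a ≠ Fin.last n := by
    rintro rfl
    have h4 := Fin.lt_def.1 hab
    have h5 := b.2
    simp at h4
    omega
  have h6 : w a ≠ w (Fin.last n) := fun h => ha (hw.2.1 h)
  exact hw.2.2 a b c (Fin.last n) hab hbc hc2 ⟨h1, by omega, by omega⟩

lemma surj {n : ℕ} (w : Fin n → ℕ) (h1 : ∀ i, w i < n) (h2 : Function.Injective w) (x : ℕ)
    (hx : x < n) : ∃ i, w i = x := by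
  have h3 : Function.Injective (fun i => (⟨w i, h1 i⟩ : Fin n)) := by
    intro a b h
    exact h2 (by simpa using h)
  obtain ⟨i, hi⟩ := (Finite.injective_iff_surjective.1 h3) ⟨x, hx⟩
  exact ⟨i, by simpa using congrArg Fin.val hi⟩

lemma kP_high {n : ℕ} (w : Fin (n + 1) → ℕ) (hw : okP w) (v : ℕ) (hv : w (Fin.last n) < v)
    (hn : v ≤ n + 1) : kP (ext w v) = kP w + 1 := by
  have h0 : (VP (ext w v)).filter (fun u => u ≤ v) =
      insert (w (Fin.last n) + 1) ((VP w).filter (fun u => u ≤ w (Fin.last n))) := by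
    ext u
    rw [Finset.mem_insert]
    unfold VP
    simp only [Finset.mem_filter, Finset.mem_range]
    constructor
    · rintro ⟨⟨h1, h2⟩, h3⟩
      obtain ⟨h4, h5⟩ := (site_low w v u h3).1 h2
      by_cases h6 : u ≤ w (Fin.last n)
      · right
        exact ⟨⟨by omega, h4⟩, h6⟩
      · left
        by_contra h7
        obtain ⟨i, hi⟩ := surj w hw.1 hw.2.1 (w (Fin.last n) + 1) (by omega)
        have hi2 : i ≠ Fin.last n := by
          rintro rfl
          omega
        exact h5 i (Fin.lt_last_iff_ne_last.2 hi2) ⟨by omega, by omega, h3⟩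
    · rintro (h1 | ⟨⟨h1, h2⟩, h3⟩)
      · subst h1
        refine ⟨⟨by omega, (site_low w v _ (by omega)).2 ⟨next_good w hw, ?_⟩⟩, by omega⟩
        rintro a _ ⟨h4, h5, h6⟩
        omega
      · refine ⟨⟨by omega, (site_low w v u (by omega)).2 ⟨h2, ?_⟩⟩, by omega⟩
        rintro a _ ⟨h4, h5, h6⟩
        omega
  unfold kP
  rw [ext_last, h0, Finset.card_insert_of_notMem]
  intro h
  have := (Finset.mem_filter.1 h).2
  omega

lemma innerP {n : ℕ} (F : ℕ → ℕ → ℕ) (w : Fin (n + 1) → ℕ) (hw : okP w) :
    ∑ v ∈ VP w, F (hP (ext w v)) (kP (ext w v)) = D F (hP w) (kP w) := by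
  rw [← Finset.sum_filter_add_sum_filter_not (VP w) (fun u => u ≤ w (Fin.last n)), add_comm]
  unfold D
  congr 1
  · have h1 : ∀ v ∈ (VP w).filter (fun u => ¬ u ≤ w (Fin.last n)),
        F (hP (ext w v)) (kP (ext w v)) =
        F ((((VP w).filter (fun u => ¬ u ≤ w (Fin.last n))).filter (fun u => v ≤ u)).card)
          (kP w + 1) := by
      intro v hv
      obtain ⟨hv1, hv2⟩ := Finset.mem_filter.1 hv
      rw [hP_ext, kP_high w hw v (by omega) (VP_le w v hv1)]
      congr 2
      ext u
      simp only [Finset.mem_filter]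
      constructor
      · rintro ⟨h3, h4⟩
        exact ⟨⟨h3, by omega⟩, h4⟩
      · rintro ⟨⟨h3, _⟩, h4⟩
        exact ⟨h3, h4⟩
    rw [Finset.sum_congr rfl h1, sum_rank_ge _ (fun r => F r (kP w + 1))]
    rfl
  · have h1 : ∀ v ∈ (VP w).filter (fun u => u ≤ w (Fin.last n)),
        F (hP (ext w v)) (kP (ext w v)) =
        (fun s => F (hP w + s) (kP w + 1 - s))
          ((((VP w).filter (fun u => u ≤ w (Fin.last n))).filter (fun u => v ≤ u)).card) := by
      intro v hv
      obtain ⟨hv1, hv2⟩ := Finset.mem_filter.1 hv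
      have h2 : ((VP w).filter (fun u => v ≤ u)).card = hP w +
          (((VP w).filter (fun u => u ≤ w (Fin.last n))).filter (fun u => v ≤ u)).card := by
        unfold hP
        rw [← Finset.card_union_of_disjoint]
        · congr 1
          ext u
          simp only [Finset.mem_filter, Finset.mem_union]
          constructor
          · rintro ⟨h3, h4⟩
            by_cases h5 : u ≤ w (Fin.last n)
            · exact Or.inr ⟨⟨h3, h5⟩, h4⟩
            · exact Or.inl ⟨h3, h5⟩
          · rintro (⟨h3, h4⟩ | ⟨⟨h3, h4⟩, h5⟩)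
            · exact ⟨h3, by omega⟩
            · exact ⟨h3, h5⟩
        · rw [Finset.disjoint_left]
          intro u h3 h4
          have h5 := (Finset.mem_filter.1 h3).2
          have h6 := (Finset.mem_filter.1 (Finset.mem_filter.1 h4).1).2
          exact h5 h6
      have h3 : ((VP w).filter (fun u => u ≤ v)).card +
          (((VP w).filter (fun u => u ≤ w (Fin.last n))).filter (fun u => v ≤ u)).card =
          kP w + 1 := by
        unfold kP
        rw [← Finset.card_union_add_card_inter]
        congr 1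
        · congr 1
          ext u
          simp only [Finset.mem_filter, Finset.mem_union]
          constructor
          · rintro (⟨h3, h4⟩ | ⟨⟨h3, h4⟩, h5⟩)
            · exact ⟨h3, by omega⟩
            · exact ⟨h3, h4⟩
          · rintro ⟨h3, h4⟩
            rcases le_total u v with h5 | h5
            · exact Or.inl ⟨h3, h5⟩
            · exact Or.inr ⟨⟨h3, h4⟩, h5⟩
        · rw [Finset.card_eq_one]
          refine ⟨v, ?_⟩
          ext u
          simp only [Finset.mem_filter, Finset.mem_inter, Finset.mem_singleton]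
          constructor
          · rintro ⟨⟨_, h4⟩, ⟨_, h5⟩⟩
            omega
          · rintro rfl
            exact ⟨⟨hv1, le_refl _⟩, ⟨⟨hv1, hv2⟩, le_refl _⟩⟩
      rw [hP_ext, kP_low w v hv2 (VP_le w v hv1), h2]
      show F _ _ = F _ _
      congr 1
      omega
    rw [Finset.sum_congr rfl h1, sum_rank_ge _ (fun s => F (hP w + s) (kP w + 1 - s))]
    rfl

def unshift (v a : ℕ) : ℕ := if a < v then a else a - 1

lemma unshift_shift (v a : ℕ) : unshift v (shift v a) = a := by
  unfold unshift shift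
  split_ifs <;> omega

lemma shift_unshift (v a : ℕ) (h : a ≠ v) : shift v (unshift v a) = a := by
  unfold unshift shift
  split_ifs <;> omega

lemma stepP (F : ℕ → ℕ → ℕ) (n : ℕ) :
    ∑ w ∈ SP (n + 2), F (hP w) (kP w) = ∑ w ∈ SP (n + 1), D F (hP w) (kP w) := by
  have h1 : ∑ w ∈ SP (n + 1), D F (hP w) (kP w) = ∑ w ∈ SP (n + 1), ∑ v ∈ VP w,
      F (hP (ext w v)) (kP (ext w v)) := by
    refine Finset.sum_congr rfl ?_
    intro w hw
    exact (innerP F w ((mem_SP w).1 hw)).symm
  rw [h1, Finset.sum_sigma' (SP (n + 1)) (fun w => VP w)]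
  symm
  have key : ∀ w' : Fin (n + 2) → ℕ, Function.Injective w' →
      ext (fun i : Fin (n + 1) => unshift (w' (Fin.last (n + 1))) (w' i.castSucc))
        (w' (Fin.last (n + 1))) = w' := by
    intro w' hw
    funext i
    induction i using Fin.lastCases with
    | last => simp
    | cast i =>
      rw [ext_cast, shift_unshift]
      intro h
      exact absurd (hw h) (Fin.castSucc_lt_last i).ne
  refine Finset.sum_nbij' (fun x : (Σ _ : Fin (n + 1) → ℕ, ℕ) => (ext x.1 x.2 : Fin (n + 2) → ℕ))
    (fun w' => ⟨fun i : Fin (n + 1) => unshift (w' (Fin.last (n + 1))) (w' i.castSucc),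
      w' (Fin.last (n + 1))⟩) ?_ ?_ ?_ ?_ ?_
  · rintro ⟨w, v⟩ h
    rw [Finset.mem_sigma] at h
    rw [mem_SP]
    exact (ok_ext w v).2 ⟨(mem_SP w).1 h.1, h.2⟩
  · intro w' hw
    rw [mem_SP] at hw
    rw [Finset.mem_sigma, mem_SP]
    apply (ok_ext _ _).1
    rw [key w' hw.2.1]
    exact hw
  · rintro ⟨w, v⟩ h
    have : (fun i : Fin (n + 1) => unshift v (shift v (w i))) = w := by
      funext i
      rw [unshift_shift]
    simp only [ext_last, ext_cast]
    rw [this]
  · intro w' hw
    rw [mem_SP] at hw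
    exact key w' hw.2.1
  · rintro ⟨w, v⟩ h
    rfl

end Pool.Agent.Q95.SB
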